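import Mathlib
import Pool.Agent.Run7.h566.CS.Tup

/-! From few points with values in a subgroup to few dependent tuples. -/

set_option autoImplicit false

open Finset

namespace Pool.Agent.Run7.h566.LS

/-- few points of `S` have their value in a subgroup which does not contain a multiple of the
coefficients -/
def FewIn {α ι : Type} (S : Finset α) (v : α → ℝ) (co : ι → ℝ) (B : ℝ) : Prop :=
  ∀ W : AddSubgroup ℝ, (¬ ∃ N : ℕ, 0 < N ∧ ∀ m, (N : ℝ) * co m ∈ W) →
    ∀ S' ⊆ S, (∀ q ∈ S', v q ∈ W) → (S'.card : ℝ) ≤ B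

theorem few_tuples {α ι : Type} {S : Finset α} {v : α → ℝ} {co : ι → ℝ} {B : ℝ} (hB : 0 ≤ B)
    (few : FewIn S v co B) (G : ∀ k : ℕ, (Fin k → ℝ) → Prop) (hG0 : ∀ v : Fin 0 → ℝ, G 0 v)
    (hstep : ∀ k K : ℕ, k < K → ∀ v : Fin k → ℝ, G k v → ∀ w : Fin K → ℝ, G K w →
        ∃ W : Submodule ℚ ℝ, (∀ y, ¬ G (k + 1) (Fin.snoc v y : Fin (k + 1) → ℝ) → y ∈ W) ∧
          ∃ i, w i ∉ W) (k : ℕ) (m : Fin k → ι) (hm : G k fun i => co (m i)) :
    ({z : Fin k → α | (∀ i, z i ∈ S) ∧ ¬ G k fun i => v (z i)}.ncard : ℝ) ≤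
      k * B * (S.card : ℝ) ^ (k - 1) := by
  classical
  have hfE : {z : Fin k → α | (∀ i, z i ∈ S) ∧ ¬ G k fun i => v (z i)}.Finite := by
    refine Set.Finite.subset (Set.Finite.pi' (t := fun _ : Fin k => (S : Set α))
      (fun _ => S.finite_toSet)) ?_
    exact fun z hz => hz.1
  rw [Set.ncard_eq_toFinset_card _ hfE]
  refine Pool.Agent.Run7.h566.CS.tuples S (fun k z => G k fun i => v (z i)) k B hB
    (fun p => hG0 _) (fun j hj p hp hGp S' hS' hq => ?_) k le_rfl hfE.toFinset (fun z hz => ?_)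
  · obtain ⟨W, hW1, i, hi⟩ := hstep j k hj _ hGp _ hm
    refine few W.toAddSubgroup ?_ S' hS' ?_
    · rintro ⟨N, hN0, hN⟩
      apply hi
      have h2 : (N : ℝ) * co (m i) ∈ W := hN (m i)
      have h3 := W.smul_mem ((N : ℚ)⁻¹) h2
      have hN' : (N : ℝ) ≠ 0 := by exact_mod_cast hN0.ne'
      have h4 : ((N : ℚ)⁻¹) • ((N : ℝ) * co (m i)) = co (m i) := by
        rw [Rat.smul_def]
        push_cast
        field_simp
      rwa [h4] at h3
    · intro q hqS
      apply hW1
      have h2 := hq q hqS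
      have h3 : (fun i => v ((Fin.snoc p q : Fin (j + 1) → α) i)) =
          (Fin.snoc (fun i => v (p i)) (v q) : Fin (j + 1) → ℝ) := by
        funext i
        refine Fin.lastCases ?_ (fun l => ?_) i
        · rw [Fin.snoc_last, Fin.snoc_last]
        · rw [Fin.snoc_castSucc, Fin.snoc_castSucc]
      rwa [h3] at h2
  · rw [Set.Finite.mem_toFinset] at hz
    exact ⟨fun i => hz.1 i, hz.2⟩

theorem few_pairs {α ι : Type} {S : Finset α} {v : α → ℝ} {co : ι → ℝ} {B : ℝ}
    (few : FewIn S v co B) (K : Subfield ℝ) (hK : ¬ ∃ t : ℝ, t ≠ 0 ∧ ∀ m, t * co m ∈ K) :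
    ({z : α × α | z.1 ∈ S ∧ z.2 ∈ S ∧ v z.1 / v z.2 ∈ K}.ncard : ℝ) ≤ 2 * B * S.card := by
  classical
  have hfE : {z : α × α | z.1 ∈ S ∧ z.2 ∈ S ∧ v z.1 / v z.2 ∈ K}.Finite :=
    Set.Finite.subset (S.finite_toSet.prod S.finite_toSet) fun z hz => ⟨hz.1, hz.2.1⟩
  rw [Set.ncard_eq_toFinset_card _ hfE]
  set E := hfE.toFinset with hE
  have hEmem : ∀ z ∈ E, z.1 ∈ S ∧ z.2 ∈ S ∧ v z.1 / v z.2 ∈ K := by
    intro z hz
    rw [hE, Set.Finite.mem_toFinset] at hz
    exact hz
  have hc2 : E.card = ∑ q ∈ S, (E.filter fun z => z.2 = q).card :=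
    Finset.card_eq_sum_card_fiberwise fun z hz => (hEmem z (Finset.mem_coe.1 hz)).2.1
  have hfib : ∀ q ∈ S, ((E.filter fun z => z.2 = q).card : ℝ) ≤
      B + if v q = 0 then (S.card : ℝ) else 0 := by
    intro q hq
    set U := (E.filter fun z => z.2 = q).image Prod.fst with hU
    have h1 : (E.filter fun z => z.2 = q).card = U.card := by
      rw [hU, Finset.card_image_of_injOn]
      intro z hz z' hz' h
      rw [Finset.mem_coe, Finset.mem_filter] at hz hz'
      exact Prod.ext h (hz.2.trans hz'.2.symm)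
    have hUS : U ⊆ S := by
      intro p hp
      obtain ⟨z, hz, rfl⟩ := Finset.mem_image.1 hp
      exact (hEmem z (Finset.mem_filter.1 hz).1).1
    rw [h1]
    by_cases h0 : v q = 0
    · rw [if_pos h0]
      have : (U.card : ℝ) ≤ S.card := by exact_mod_cast Finset.card_le_card hUS
      have h2 : 0 ≤ B := by
        have := few ⊥ (fun ⟨N, hN0, hN⟩ => hK ⟨1, one_ne_zero, fun m => by
          have h1 := hN m
          rw [AddSubgroup.mem_bot] at h1
          have hN' : (N : ℝ) ≠ 0 := by exact_mod_cast hN0.ne'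
          rcases mul_eq_zero.1 h1 with h | h
          · exact absurd h hN'
          · rw [h, mul_zero]
            exact K.zero_mem⟩) ∅ (Finset.empty_subset _) (fun q hq => absurd hq (notMem_empty _))
        simpa using this
      linarith
    · rw [if_neg h0, add_zero]
      refine few (K.toAddSubgroup.map (AddMonoidHom.mulRight (v q))) ?_ U hUS ?_
      · rintro ⟨N, hN0, hN⟩
        apply hK
        have hN' : (N : ℝ) ≠ 0 := by exact_mod_cast hN0.ne'
        refine ⟨N / v q, div_ne_zero hN' h0, fun m => ?_⟩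
        obtain ⟨κ, hκ, hκ'⟩ := hN m
        have h2 : κ * v q = N * co m := hκ'
        have h3 : (N : ℝ) / v q * co m = κ := by
          field_simp
          linarith
        rw [h3]
        exact hκ
      · intro p hp
        obtain ⟨z, hz, rfl⟩ := Finset.mem_image.1 hp
        have h2 := Finset.mem_filter.1 hz
        have h3 := (hEmem z h2.1).2.2
        rw [h2.2] at h3
        refine ⟨_, h3, ?_⟩
        show v z.1 / v q * v q = v z.1
        field_simp
  have hzero : ((S.filter fun q => v q = 0).card : ℝ) ≤ B := by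
    refine few ⊥ ?_ _ (Finset.filter_subset _ _) ?_
    · rintro ⟨N, hN0, hN⟩
      apply hK
      refine ⟨1, one_ne_zero, fun m => ?_⟩
      have h1 := hN m
      rw [AddSubgroup.mem_bot] at h1
      have hN' : (N : ℝ) ≠ 0 := by exact_mod_cast hN0.ne'
      rcases mul_eq_zero.1 h1 with h | h
      · exact absurd h hN'
      · rw [h, mul_zero]
        exact K.zero_mem
    · intro q hq
      rw [AddSubgroup.mem_bot]
      exact (Finset.mem_filter.1 hq).2
  rw [hc2]
  push_cast
  calc ∑ q ∈ S, ((E.filter fun z => z.2 = q).card : ℝ)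
      ≤ ∑ q ∈ S, (B + if v q = 0 then (S.card : ℝ) else 0) := Finset.sum_le_sum hfib
    _ = S.card * B + (S.filter fun q => v q = 0).card * S.card := by
        rw [Finset.sum_add_distrib, Finset.sum_const, nsmul_eq_mul, ← Finset.sum_filter,
          Finset.sum_const, nsmul_eq_mul]
    _ ≤ S.card * B + B * S.card := by gcongr
    _ = 2 * B * S.card := by ring

end Pool.Agent.Run7.h566.LS
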