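import Mathlib
import Pool.Agent.N759.FV.Dense2

/-! Small points of a system of linear forms under local hypotheses: the number of all of them, the
number of those on a hypersurface, and the coefficients of forms from their values. This is the proof
of `Pool/Agent/N759/FV/Zeros.lean` and `Dense2.lean` with `HasNu` replaced by what it is used for. -/

set_option autoImplicit false

open Filter Topology Matrix H715R2

namespace Pool.Agent.Run7.h566.LS

open Pool.Agent.N759.FV Pool.Agent.N759.UC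

/-- the width of a cell -/
noncomputable def B0 (r : ℕ) (ν Λ : ℝ) : ℝ := 1 + r + |Real.log ν| + |Real.log Λ|

lemma B0_nonneg (r : ℕ) (ν Λ : ℝ) : 0 ≤ B0 r ν Λ := by unfold B0; positivity

/-- the local hypotheses -/
structure Loc {α : Type} {r : ℕ} (ν Λ : ℝ) (M : ℕ) (y : α → Fin (r + 1) → ℝ) (S : Finset α) :
    Prop where
  low : ∀ p ∈ S, ν ≤ |∏ i, y p i|
  up : ∀ p ∈ S, |∏ i, y p i| ≤ Λ
  mult : ∀ φ : Fin (r + 1) → ℝ, ∑ i, φ i = 0 → ∀ S' ⊆ S,
    (∀ p ∈ S', ∀ i, Real.exp (φ i) * |y p i| ≤ Real.exp (B0 r ν Λ)) → S'.card ≤ M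

lemma Loc.mono {α : Type} {r : ℕ} {ν Λ : ℝ} {M : ℕ} {y : α → Fin (r + 1) → ℝ} {S S' : Finset α}
    (h : Loc ν Λ M y S) (hS : S' ⊆ S) : Loc ν Λ M y S' :=
  ⟨fun p hp => h.low p (hS hp), fun p hp => h.up p (hS hp),
    fun φ hφ T hT => h.mult φ hφ T (hT.trans hS)⟩

/-- the shift of a class -/
noncomputable def psi {r : ℕ} (m : ℕ) (x : ℝ) (c : Fin r → Fin m) : Fin (r + 1) → ℝ :=
  Fin.snoc (α := fun _ => ℝ) (fun j => ((c j : ℕ) : ℝ) - x) (-∑ j, (((c j : ℕ) : ℝ) - x))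

lemma psi_sum {r : ℕ} (m : ℕ) (x : ℝ) (c : Fin r → Fin m) : ∑ i, psi m x c i = 0 := by
  rw [Fin.sum_univ_castSucc]
  simp [psi]

/-- the number of positions -/
noncomputable def KK (r : ℕ) (ν x : ℝ) : ℕ := ⌊(r + 1) * x + |Real.log ν|⌋₊

/-- **Cells.** -/
theorem cover {α : Type} {r : ℕ} {ν Λ : ℝ} (hν : 0 < ν) {M : ℕ} {y : α → Fin (r + 1) → ℝ}
    {S : Finset α} (h : Loc ν Λ M y S) {x : ℝ} (_hx : 1 ≤ x)
    (hyx0 : ∀ p ∈ S, ∀ i, |y p i| ≤ Real.exp x) (m : ℕ) (hm0 : 0 < m) :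
    ∃ (cl : α → Fin r → Fin m) (pos : α → Fin r → Fin (KK r ν x + 1)),
      (∀ p ∈ S, ∀ i, |Real.log |y p i| + gpos (m : ℝ) (fun j => ((pos p j : ℕ) : ℝ)) i +
        psi m x (cl p) i| ≤ B0 r ν Λ) ∧
      ∀ U : Finset ((Fin r → Fin m) × (Fin r → Fin (KK r ν x + 1))),
        (∀ p ∈ S, (cl p, pos p) ∈ U) → S.card ≤ M * U.card := by
  classical
  have hFν := h.low
  have hFpos : ∀ p ∈ S, 0 < |∏ i, y p i| := fun p hp => hν.trans_le (hFν p hp)
  have hyprod : ∀ p ∈ S, ∏ i, |y p i| = |∏ i, y p i| := by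
    intro p hp
    rw [Finset.abs_prod]
  have hy0 : ∀ p ∈ S, ∀ i, y p i ≠ 0 := by
    intro p hp i h0
    have h1 := hyprod p hp
    rw [Finset.prod_eq_zero (Finset.mem_univ i) (by rw [h0, abs_zero])] at h1
    linarith [hFpos p hp]
  have hysum : ∀ p ∈ S, ∑ i, Real.log (abs (y p i)) = Real.log |∏ i, y p i| := by
    intro p hp
    rw [← hyprod p hp, Real.log_prod fun i _ => abs_ne_zero.2 (hy0 p hp i)]
  have hyx : ∀ p ∈ S, ∀ i, Real.log (abs (y p i)) ≤ x := by
    intro p hp i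
    rw [Real.log_le_iff_le_exp (abs_pos.2 (hy0 p hp i))]
    exact hyx0 p hp i
  have hloglam1 : ∀ p ∈ S, Real.log ν ≤ Real.log |∏ i, y p i| := fun p hp =>
    Real.log_le_log hν (hFν p hp)
  have hloglam2 : ∀ p ∈ S, Real.log |∏ i, y p i| ≤ Real.log Λ := fun p hp =>
    Real.log_le_log (hFpos p hp) (h.up p hp)
  have hloglam : ∀ p ∈ S, |Real.log (abs (∏ i, y p i))| ≤ |Real.log ν| + |Real.log Λ| := by
    intro p hp
    have hloglam1 := hloglam1 p hp
    have hloglam2 := hloglam2 p hp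
    rw [abs_le]
    constructor
    · linarith [neg_abs_le (Real.log ν), abs_nonneg (Real.log Λ)]
    · linarith [le_abs_self (Real.log Λ), abs_nonneg (Real.log ν)]
  have hylow : ∀ p ∈ S, ∀ i, -|Real.log ν| - r * x ≤ Real.log (abs (y p i)) := by
    intro p hp i
    have h1 := hysum p hp
    rw [← Finset.add_sum_erase Finset.univ _ (Finset.mem_univ i)] at h1
    have h2 : ∑ j ∈ Finset.univ.erase i, Real.log (abs (y p j)) ≤
        ∑ _j ∈ Finset.univ.erase i, x := Finset.sum_le_sum fun j _ => hyx p hp j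
    rw [Finset.sum_const, Finset.card_erase_of_mem (Finset.mem_univ i), Finset.card_univ,
      Fintype.card_fin, Nat.add_sub_cancel, nsmul_eq_mul] at h2
    linarith [neg_abs_le (Real.log ν), hloglam1 p hp]
  -- positions
  set κ : α → Fin r → ℕ :=
    fun p j => ⌊x - Real.log (abs (y p j.castSucc))⌋₊ with hκ
  set K : ℕ := KK r ν x with hK
  have hκK : ∀ p ∈ S, ∀ j, κ p j ≤ K := by
    intro p hp j
    refine Nat.floor_le_floor ?_
    have := hylow p hp j.castSucc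
    linarith
  have hκ1 : ∀ p ∈ S, ∀ j, (κ p j : ℝ) ≤ x - Real.log (abs (y p j.castSucc)) := fun p hp j =>
    Nat.floor_le (by linarith [hyx p hp j.castSucc])
  have hκ2 : ∀ p j, x - Real.log (abs (y p j.castSucc)) < (κ p j : ℝ) + 1 := fun p j =>
    Nat.lt_floor_add_one _
  set pos : α → Fin r → Fin (K + 1) :=
    fun p j => ⟨min (κ p j / m) K, Nat.lt_succ_iff.2 (min_le_right _ _)⟩ with hpos
  set cl : α → Fin r → Fin m := fun p j => ⟨κ p j % m, Nat.mod_lt _ hm0⟩ with hcl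
  have hposκ : ∀ p ∈ S, ∀ j, (κ p j : ℝ) = m * ((pos p j : ℕ) : ℝ) + ((cl p j : ℕ) : ℝ) := by
    intro p hp j
    have h1 : κ p j / m ≤ K := (Nat.div_le_self _ _).trans (hκK p hp j)
    have h2 : ((pos p j : ℕ)) = κ p j / m := min_eq_left h1
    rw [h2]
    have h3 := Nat.div_add_mod (κ p j) m
    exact_mod_cast h3.symm
  have hnear : ∀ p ∈ S, ∀ i, |Real.log (abs (y p i)) +
      gpos (m : ℝ) (fun j => ((pos p j : ℕ) : ℝ)) i + psi m x (cl p) i| ≤ B0 r ν Λ := by
    intro p hp i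
    have hj : ∀ j : Fin r, Real.log (abs (y p j.castSucc)) +
        (m * ((pos p j : ℕ) : ℝ)) + (((cl p j : ℕ) : ℝ) - x) ≤ 0 ∧
        -1 ≤ Real.log (abs (y p j.castSucc)) +
        (m * ((pos p j : ℕ) : ℝ)) + (((cl p j : ℕ) : ℝ) - x) := by
      intro j
      have h1 := hκ1 p hp j
      have h2 := hκ2 p j
      rw [hposκ p hp j] at h1 h2
      constructor <;> linarith
    refine Fin.lastCases ?_ (fun j => ?_) i
    · simp only [gpos, psi, Fin.snoc_last]
      have h1 := hysum p hp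
      rw [Fin.sum_univ_castSucc] at h1
      have h2 : Real.log (abs (y p (Fin.last r))) + -∑ j, (m : ℝ) * ((pos p j : ℕ) : ℝ) +
          -∑ j, (((cl p j : ℕ) : ℝ) - x) = Real.log |∏ i, y p i| -
          ∑ j : Fin r, (Real.log (abs (y p j.castSucc)) +
            (m * ((pos p j : ℕ) : ℝ)) + (((cl p j : ℕ) : ℝ) - x)) := by
        rw [Finset.sum_add_distrib, Finset.sum_add_distrib]
        linarith
      rw [h2]
      have h3 : ∑ j : Fin r, (Real.log (abs (y p j.castSucc)) +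
            (m * ((pos p j : ℕ) : ℝ)) + (((cl p j : ℕ) : ℝ) - x)) ≤ 0 :=
        Finset.sum_nonpos fun j _ => (hj j).1
      have h4 : ∑ _j : Fin r, (-1 : ℝ) ≤ ∑ j : Fin r, (Real.log (abs (y p j.castSucc)) +
            (m * ((pos p j : ℕ) : ℝ)) + (((cl p j : ℕ) : ℝ) - x)) :=
        Finset.sum_le_sum fun j _ => (hj j).2
      rw [Finset.sum_const, Finset.card_univ, Fintype.card_fin, nsmul_eq_mul] at h4
      have h5 := abs_le.1 (hloglam p hp)
      rw [abs_le, B0]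
      constructor <;> linarith [abs_nonneg (Real.log ν), abs_nonneg (Real.log Λ), h5.1, h5.2]
    · simp only [gpos, psi, Fin.snoc_castSucc]
      have h1 := hj j
      rw [abs_le, B0]
      have h6 : (0 : ℝ) ≤ r := Nat.cast_nonneg r
      constructor <;> linarith [abs_nonneg (Real.log ν), abs_nonneg (Real.log Λ), h1.1, h1.2]
  refine ⟨cl, pos, hnear, fun U hU => ?_⟩
  have hfib : S.card ≤ M * (S.image fun p => (cl p, pos p)).card := by
    refine Finset.card_le_mul_card_image _ _ fun b hb => ?_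
    obtain ⟨p₁, hp₁, rfl⟩ := Finset.mem_image.1 hb
    set φ : Fin (r + 1) → ℝ := fun i =>
      gpos (m : ℝ) (fun j => ((pos p₁ j : ℕ) : ℝ)) i + psi m x (cl p₁) i with hφ
    have hφ0 : ∑ i, φ i = 0 := by
      simp only [hφ]
      rw [Finset.sum_add_distrib, sum_gpos, psi_sum, add_zero]
    refine h.mult φ hφ0 _ (Finset.filter_subset _ _) fun p hp i => ?_
    obtain ⟨hpS, hpe⟩ := Finset.mem_filter.1 hp
    rw [Prod.mk.injEq] at hpe
    have h1 := hnear p hpS i
    rw [hpe.1, hpe.2] at h1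
    have h2 : |y p i| = Real.exp (Real.log (abs (y p i))) := by
      rw [Real.exp_log (abs_pos.2 (hy0 p hpS i))]
    rw [h2, ← Real.exp_add, Real.exp_le_exp]
    simp only [hφ]
    linarith [(abs_le.1 h1).2]
  refine hfib.trans (Nat.mul_le_mul_left _ (Finset.card_le_card ?_))
  intro b hb
  obtain ⟨p, hp, rfl⟩ := Finset.mem_image.1 hb
  exact hU p hp

lemma KK_le {r : ℕ} {ν x : ℝ} (hx : 1 ≤ x) :
    (KK r ν x : ℝ) + 1 ≤ (r + 2 + |Real.log ν|) * x := by
  have h1 : (KK r ν x : ℝ) ≤ (r + 1) * x + |Real.log ν| := Nat.floor_le (by positivity)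
  have h2 : |Real.log ν| ≤ |Real.log ν| * x := le_mul_of_one_le_right (abs_nonneg _) hx
  nlinarith

/-- **The number of small points.** -/
theorem count_gen (r : ℕ) {ν : ℝ} (Λ : ℝ) (hν : 0 < ν) (M : ℕ) :
    ∃ C : ℝ, 0 < C ∧ ∀ {α : Type} (y : α → Fin (r + 1) → ℝ) (S : Finset α), Loc ν Λ M y S →
      ∀ x : ℝ, 1 ≤ x → (∀ p ∈ S, ∀ i, |y p i| ≤ Real.exp x) → (S.card : ℝ) ≤ C * x ^ r := by
  classical
  refine ⟨M * (r + 2 + |Real.log ν|) ^ r + 1, by positivity, fun {α} y S h x hx hyx => ?_⟩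
  obtain ⟨cl, pos, -, hU⟩ := cover hν h hx hyx 1 one_pos
  have h1 := hU Finset.univ fun p _ => Finset.mem_univ _
  have h2 : (Finset.univ : Finset ((Fin r → Fin 1) × (Fin r → Fin (KK r ν x + 1)))).card =
      (KK r ν x + 1) ^ r := by
    rw [Finset.card_univ, Fintype.card_prod, Fintype.card_fun, Fintype.card_fun, Fintype.card_fin,
      Fintype.card_fin, Fintype.card_fin, one_pow, one_mul]
  rw [h2] at h1
  have h3 : (S.card : ℝ) ≤ M * ((KK r ν x : ℝ) + 1) ^ r := by exact_mod_cast h1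
  have h4 : ((KK r ν x : ℝ) + 1) ^ r ≤ ((r + 2 + |Real.log ν|) * x) ^ r :=
    pow_le_pow_left₀ (by positivity) (KK_le hx) _
  have hx0 : 0 ≤ x := by linarith
  calc (S.card : ℝ) ≤ M * ((KK r ν x : ℝ) + 1) ^ r := h3
    _ ≤ M * ((r + 2 + |Real.log ν|) * x) ^ r := mul_le_mul_of_nonneg_left h4 (Nat.cast_nonneg _)
    _ = M * (r + 2 + |Real.log ν|) ^ r * x ^ r := by rw [mul_pow]; ring
    _ ≤ (M * (r + 2 + |Real.log ν|) ^ r + 1) * x ^ r :=
        mul_le_mul_of_nonneg_right (by linarith) (pow_nonneg hx0 _)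

/-- **Small points on a hypersurface of degree `n`.** -/
theorem zeros_gen {r : ℕ} (n : ℕ) {ν : ℝ} (Λ : ℝ) (hν : 0 < ν) (M : ℕ) :
    ∃ C : ℝ, 0 < C ∧ ∀ {α : Type} (y : α → Fin (r + 1) → ℝ) (S : Finset α), Loc ν Λ M y S →
      ∀ x : ℝ, 1 ≤ x → (∀ p ∈ S, ∀ i, |y p i| ≤ Real.exp x) →
      ∀ hc : Mon (r + 1) n → ℝ, hc ≠ 0 →
      (∀ p ∈ S, ∑ a, hc a * ∏ i, y p i ^ ex a i = 0) → (S.card : ℝ) ≤ C * x ^ (r - 1) := by
  classical
  set MM : ℕ := Fintype.card (Mon (r + 1) n) with hMM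
  set B₀ : ℝ := B0 r ν Λ with hB₀
  have hB₀0 : 0 ≤ B₀ := B0_nonneg r ν Λ
  have hlM : 0 ≤ Real.log (MM : ℝ) := Real.log_natCast_nonneg _
  set m : ℕ := ⌈2 * (Real.log (MM : ℝ) + 2 * (n : ℝ) * B₀)⌉₊ + 1 with hm
  have hm0 : 0 < m := Nat.succ_pos _
  have hmR : 2 * (Real.log (MM : ℝ) + 2 * (n : ℝ) * B₀) < (m : ℝ) := by
    rw [hm]
    push_cast
    have := Nat.le_ceil (2 * (Real.log (MM : ℝ) + 2 * (n : ℝ) * B₀))
    linarith
  have hmR0 : (0 : ℝ) < m := by exact_mod_cast hm0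
  set Y₁ : ℝ := M * ((MM : ℝ) ^ 2 * (m : ℝ) ^ r) * (r + 2 + |Real.log ν|) ^ (r - 1) with hY₁
  have hY₁0 : 0 ≤ Y₁ := by positivity
  refine ⟨Y₁ + 1, by positivity, ?_⟩
  intro α y S hL x hx hyx hc hc0 hck
  have hx0 : 0 ≤ x := by linarith
  have hy0 : ∀ p ∈ S, ∀ i, y p i ≠ 0 := by
    intro p hp i h0
    have h1 := hL.low p hp
    rw [Finset.prod_eq_zero (Finset.mem_univ i) h0, abs_zero] at h1
    linarith
  have hcov := cover hν hL hx hyx m hm0
  obtain ⟨K, hK⟩ : ∃ K : ℕ, K = KK r ν x := ⟨_, rfl⟩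
  rw [← hK] at hcov
  obtain ⟨cl, pos, hnear, hU⟩ := hcov
  -- the positions of a class
  have hclass : ∀ c : Fin r → Fin m, ((S.filter fun p => cl p = c).image pos).card ≤
      MM ^ 2 * (K + 1) ^ (r - 1) := by
    intro c
    have hex : ∀ k ∈ (S.filter fun p => cl p = c).image pos, ∃ p, p ∈ S ∧ cl p = c ∧ pos p = k := by
      intro k hk
      obtain ⟨p, hp, hpk⟩ := Finset.mem_image.1 hk
      exact ⟨p, (Finset.mem_filter.1 hp).1, (Finset.mem_filter.1 hp).2, hpk⟩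
    rcases ((S.filter fun p => cl p = c).image pos).eq_empty_or_nonempty with he | hne
    · rw [he, Finset.card_empty]
      exact Nat.zero_le _
    · obtain ⟨k₀, hk₀⟩ := hne
      have : Nonempty α := ⟨(hex k₀ hk₀).choose⟩
      choose! rep hrep1 hrep2 hrep3 using hex
      refine level_card (n := n) (ex (d := r + 1) (n := n)) ex_injective sum_ex
        (fun a => hc a * ∏ i, Real.exp (-(psi m x c i)) ^ ex a i) ?_ K (m : ℝ) B₀ hmR0 hmR _
        (fun k i => Real.exp (psi m x c i) * y (rep k) i) ?_ ?_ ?_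
      · intro h0
        apply hc0
        funext a
        have h1 := congrFun h0 a
        simp only [Pi.zero_apply] at h1
        rcases mul_eq_zero.1 h1 with h2 | h2
        · exact h2
        · exfalso
          exact (Finset.prod_ne_zero_iff.2 fun i _ => pow_ne_zero _ (Real.exp_pos _).ne') h2
      · intro k hk i
        exact mul_ne_zero (Real.exp_pos _).ne' (hy0 _ (hrep1 k hk) i)
      · intro k hk
        have h1 := hck _ (hrep1 k hk)
        rw [← h1]
        refine Finset.sum_congr rfl fun a _ => ?_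
        rw [mul_assoc, ← Finset.prod_mul_distrib]
        congr 1
        refine Finset.prod_congr rfl fun i _ => ?_
        rw [← mul_pow]
        congr 1
        rw [← mul_assoc, ← Real.exp_add, neg_add_cancel, Real.exp_zero, one_mul]
      · intro k hk i
        have h1 := hnear _ (hrep1 k hk) i
        rw [hrep2 k hk, hrep3 k hk] at h1
        rw [abs_mul, abs_of_pos (Real.exp_pos _), Real.log_mul (Real.exp_pos _).ne'
          (abs_ne_zero.2 (hy0 _ (hrep1 k hk) i)), Real.log_exp]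
        rwa [show psi m x c i + Real.log (abs (y (rep k) i)) +
          gpos (m : ℝ) (fun j => ((k j : ℕ) : ℝ)) i = Real.log (abs (y (rep k) i)) +
          gpos (m : ℝ) (fun j => ((k j : ℕ) : ℝ)) i + psi m x c i by ring]
  have himg : (S.image fun p => (cl p, pos p)).card ≤ (MM ^ 2 * (K + 1) ^ (r - 1)) * m ^ r := by
    have h1 := Finset.card_le_mul_card_image (f := fun b : (Fin r → Fin m) × (Fin r → Fin (K + 1)) =>
      b.1) (S.image fun p => (cl p, pos p)) (MM ^ 2 * (K + 1) ^ (r - 1)) (fun c _ => by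
        refine le_trans ?_ (hclass c)
        refine Finset.card_le_card_of_injOn (fun b => b.2) (fun b hb => ?_) ?_
        · obtain ⟨hb1, hb2⟩ := Finset.mem_filter.1 hb
          obtain ⟨p, hp, rfl⟩ := Finset.mem_image.1 hb1
          exact Finset.mem_coe.2 (Finset.mem_image.2 ⟨p, Finset.mem_filter.2 ⟨hp, hb2⟩, rfl⟩)
        · intro b hb b' hb' hbb
          have h2 := (Finset.mem_filter.1 hb).2
          have h3 := (Finset.mem_filter.1 hb').2
          exact Prod.ext (h2.trans h3.symm) hbb)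
    refine h1.trans (Nat.mul_le_mul_left _ ?_)
    refine (Finset.card_le_univ _).trans ?_
    rw [Fintype.card_fun, Fintype.card_fin, Fintype.card_fin]
  have hfib := hU (S.image fun p => (cl p, pos p)) fun p hp => Finset.mem_image_of_mem _ hp
  have hcount : (S.card : ℝ) ≤ M * (((MM : ℝ) ^ 2 * ((K : ℝ) + 1) ^ (r - 1)) * (m : ℝ) ^ r) := by
    exact_mod_cast hfib.trans (Nat.mul_le_mul_left _ himg)
  have hKx : (K : ℝ) + 1 ≤ (r + 2 + |Real.log ν|) * x := by
    rw [hK]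
    exact KK_le hx
  have hpow : ((K : ℝ) + 1) ^ (r - 1) ≤ ((r + 2 + |Real.log ν|) * x) ^ (r - 1) :=
    pow_le_pow_left₀ (by positivity) hKx _
  calc (S.card : ℝ) ≤ M * (((MM : ℝ) ^ 2 * ((K : ℝ) + 1) ^ (r - 1)) * (m : ℝ) ^ r) := hcount
    _ ≤ M * (((MM : ℝ) ^ 2 * ((r + 2 + |Real.log ν|) * x) ^ (r - 1)) * (m : ℝ) ^ r) := by
        refine mul_le_mul_of_nonneg_left ?_ (Nat.cast_nonneg _)
        refine mul_le_mul_of_nonneg_right ?_ (pow_nonneg hmR0.le _)
        exact mul_le_mul_of_nonneg_left hpow (sq_nonneg _)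
    _ = Y₁ * x ^ (r - 1) := by rw [hY₁, mul_pow]; ring
    _ ≤ (Y₁ + 1) * x ^ (r - 1) :=
        mul_le_mul_of_nonneg_right (by linarith) (pow_nonneg hx0 _)

/-- **The coefficients of a form from its values at small points.** -/
theorem coeffs_gen {r : ℕ} (n : ℕ) {ν : ℝ} (Λ : ℝ) (hν : 0 < ν) (M : ℕ) :
    ∃ C : ℝ, 0 < C ∧ ∀ (g : Matrix (Fin (r + 1)) (Fin (r + 1)) ℝ), g.det ≠ 0 →
      ∀ (S : Finset (Fin (r + 1) → ℤ)), Loc ν Λ M (fun p => g *ᵥ iR p) S →
      ∀ x : ℝ, 1 ≤ x → (∀ p ∈ S, ∀ i, |(g *ᵥ iR p) i| ≤ Real.exp x) →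
      C * x ^ (r - 1) < (S.card : ℝ) →
      ∃ N : ℕ, 0 < N ∧ ∀ P : MvPolynomial (Fin (r + 1)) ℝ, P.IsHomogeneous n →
        ∀ m : Fin (r + 1) →₀ ℕ, (N : ℝ) * MvPolynomial.coeff m P ∈ AddSubgroup.closure
            ((fun p : Fin (r + 1) → ℤ => MvPolynomial.eval (iR p) P) ''
              (S : Set (Fin (r + 1) → ℤ))) := by
  classical
  obtain ⟨C, hC, H⟩ := zeros_gen (r := r) n Λ hν M
  refine ⟨C, hC, fun g hg S hL x hx hyx hcard => ?_⟩
  rcases veronese4 (n := n) S (fun p => p) (∑ p ∈ S, ∑ i, |(p i : ℝ)|) (fun p hp i => by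
    refine le_trans ?_ (Finset.single_le_sum (f := fun p : Fin (r + 1) → ℤ => ∑ i, |(p i : ℝ)|)
      (fun q _ => Finset.sum_nonneg fun _ _ => abs_nonneg _) hp)
    exact Finset.single_le_sum (f := fun i => |(p i : ℝ)|) (fun _ _ => abs_nonneg _)
      (Finset.mem_univ i)) with ⟨s, N, hN0, -, hz⟩ | ⟨w, hw0, hw⟩
  · refine ⟨N, hN0, fun P hP m => ?_⟩
    by_cases hm : MvPolynomial.coeff m P = 0
    · rw [hm, mul_zero]
      exact AddSubgroup.zero_mem _
    set w : Mon (r + 1) n → ℝ := fun a => MvPolynomial.coeff (mo a) P with hw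
    have hPe : ∀ y : Fin (r + 1) → ℝ, MvPolynomial.eval y P =
        ∑ a, w a * ∏ i, y i ^ ex a i := fun y => eval_homog hP y
    have hfc : ∀ b, (N : ℝ) * w b ∈ AddSubgroup.closure
          ((fun p : Fin (r + 1) → ℤ => MvPolynomial.eval (iR p) P) ''
            (S : Set (Fin (r + 1) → ℤ))) := by
      intro b
      obtain ⟨z, hz⟩ := hz w b
      rw [hz]
      refine AddSubgroup.sum_mem _ fun c _ => ?_
      rw [← hPe, ← zsmul_eq_mul]
      refine AddSubgroup.zsmul_mem _ (AddSubgroup.subset_closure ?_) _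
      exact ⟨(s c).1, (s c).2, rfl⟩
    have hsum : ∑ i, m i = n := by
      have h2 := hP hm
      rw [← h2, Finsupp.weight_apply, Finsupp.sum_fintype]
      · simp
      · simp
    obtain ⟨a, ha⟩ := exists_mo m hsum
    rw [← ha]
    exact hfc a
  · exfalso
    obtain ⟨h, hh0, hh⟩ := change_vars hg w hw0
    have h1 := H (fun p => g *ᵥ iR p) S hL x hx hyx h hh0 fun p hp => by
      rw [hh]
      exact hw p hp
    linarith

end Pool.Agent.Run7.h566.LS
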