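import Mathlib
import Pool.Agent.Run7.h566.LS.Gen

/-! The lattices of a counterexample to Littlewood's conjecture (in any dimension). -/

set_option autoImplicit false

open Matrix H715R2 Finset

namespace Pool.Agent.Run7.h566.LS

/-- `q * ∏ ‖q α_i‖ ≥ ν` for all `q ≥ 1` -/
def Bad {r : ℕ} (α : Fin r → ℝ) (ν : ℝ) : Prop :=
  ∀ q : ℕ, 1 ≤ q → ν ≤ (q : ℝ) * ∏ i, |(q : ℝ) * α i - (round ((q : ℝ) * α i) : ℝ)|

/-- the matrix of the forms `q`, `α_i q - p_i` -/
noncomputable def gg {r : ℕ} (α : Fin r → ℝ) : Matrix (Fin (r + 1)) (Fin (r + 1)) ℝ :=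
  Matrix.of fun i j => Fin.cases (if j = 0 then (1 : ℝ) else 0)
    (fun k => if j = 0 then α k else if j = k.succ then -1 else 0) i

lemma gg_zero {r : ℕ} (α : Fin r → ℝ) (z : Fin (r + 1) → ℤ) : (gg α *ᵥ iR z) 0 = z 0 := by
  simp [gg, mulVec, dotProduct, iR]

lemma gg_succ {r : ℕ} (α : Fin r → ℝ) (z : Fin (r + 1) → ℤ) (i : Fin r) :
    (gg α *ᵥ iR z) i.succ = α i * z 0 - z i.succ := by
  simp only [gg, mulVec, dotProduct, iR, Matrix.of_apply, Fin.cases_succ]
  rw [Fin.sum_univ_succ, Finset.sum_eq_single i]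
  · simp [Fin.succ_ne_zero]
    ring
  · intro j _ hj
    rw [if_neg (Fin.succ_ne_zero j), if_neg (fun h => hj (Fin.succ_injective _ h)), zero_mul]
  · intro h
    exact absurd (mem_univ _) h

lemma gg_det {r : ℕ} (α : Fin r → ℝ) : |(gg α).det| = 1 := by
  have h1 : (gg α).BlockTriangular OrderDual.toDual := by
    intro i j hij
    have hij' : i < j := hij
    revert hij'
    refine Fin.cases ?_ (fun k => ?_) i
    · intro h
      simp only [gg, Matrix.of_apply, Fin.cases_zero]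
      rw [if_neg h.ne']
    · intro h
      simp only [gg, Matrix.of_apply, Fin.cases_succ]
      rw [if_neg (lt_of_le_of_lt (Fin.zero_le _) h).ne', if_neg h.ne']
  rw [Matrix.det_of_lowerTriangular _ h1, Finset.abs_prod]
  refine Finset.prod_eq_one fun i _ => ?_
  refine Fin.cases ?_ (fun k => ?_) i
  · simp [gg]
  · simp [gg, Fin.succ_ne_zero]

lemma gg_det_ne {r : ℕ} (α : Fin r → ℝ) : (gg α).det ≠ 0 := by
  intro h
  have := gg_det α
  rw [h, abs_zero] at this
  exact zero_ne_one this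

lemma round_near (x : ℝ) (n : ℤ) : |x - (round x : ℝ)| ≤ |x - n| := round_le x n

/-- lower bound at all points with `q ≠ 0` -/
lemma bad_low {r : ℕ} {α : Fin r → ℝ} {ν : ℝ} (h : Bad α ν) (z : Fin (r + 1) → ℤ) (hz : z 0 ≠ 0) :
    ν ≤ |∏ i, (gg α *ᵥ iR z) i| := by
  have hq : 1 ≤ (z 0).natAbs := Nat.one_le_iff_ne_zero.2 (Int.natAbs_ne_zero.2 hz)
  have hqR : (((z 0).natAbs : ℕ) : ℝ) = |(z 0 : ℝ)| := by
    rw [Nat.cast_natAbs]
    push_cast
    rfl
  refine (h _ hq).trans ?_
  rw [Fin.prod_univ_succ, abs_mul, gg_zero, Finset.abs_prod, hqR]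
  refine mul_le_mul_of_nonneg_left ?_ (abs_nonneg _)
  refine Finset.prod_le_prod (fun _ _ => abs_nonneg _) fun i _ => ?_
  rw [gg_succ]
  rcases le_total 0 (z 0 : ℝ) with h0 | h0
  · rw [abs_of_nonneg h0]
    refine (round_near _ (z i.succ)).trans (le_of_eq ?_)
    congr 1
    ring
  · rw [abs_of_nonpos h0]
    refine (round_near _ (-z i.succ)).trans (le_of_eq ?_)
    rw [← abs_neg]
    congr 1
    push_cast
    ring

/-- the other coordinates of the solutions are bounded -/
lemma bad_coord {r : ℕ} {α : Fin r → ℝ} {ν Λ : ℝ} (hν : 0 < ν) (h : Bad α ν)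
    (z : Fin (r + 1) → ℤ) (hz : z 0 ≠ 0) (hΛ : |∏ i, (gg α *ᵥ iR z) i| ≤ Λ) (i : Fin r) :
    |(gg α *ᵥ iR z) i.succ| ≤ Λ / ν := by
  classical
  set z' : Fin (r + 1) → ℤ := Function.update z i.succ (round (α i * z 0)) with hz'
  have h0 : z' 0 = z 0 := by
    rw [hz', Function.update_of_ne (Fin.succ_ne_zero i).symm]
  have hother : ∀ j, j ≠ i.succ → (gg α *ᵥ iR z') j = (gg α *ᵥ iR z) j := by
    intro j
    refine Fin.cases (fun _ => ?_) (fun k hk => ?_) j
    · rw [gg_zero, gg_zero, h0]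
    · rw [gg_succ, gg_succ, h0, hz', Function.update_of_ne hk]
  have hi : |(gg α *ᵥ iR z') i.succ| ≤ 1 := by
    rw [gg_succ, h0, hz', Function.update_self]
    exact (abs_sub_round _).trans (by norm_num)
  have h1 := bad_low h z' (by rwa [h0])
  rw [Finset.abs_prod, ← Finset.mul_prod_erase univ _ (mem_univ i.succ)] at h1
  rw [Finset.abs_prod, ← Finset.mul_prod_erase univ _ (mem_univ i.succ)] at hΛ
  have h2 : ∏ j ∈ univ.erase i.succ, |(gg α *ᵥ iR z') j| =
      ∏ j ∈ univ.erase i.succ, |(gg α *ᵥ iR z) j| :=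
    Finset.prod_congr rfl fun j hj => by rw [hother j (Finset.ne_of_mem_erase hj)]
  rw [h2] at h1
  have h3 : 0 ≤ ∏ j ∈ univ.erase i.succ, |(gg α *ᵥ iR z) j| :=
    Finset.prod_nonneg fun _ _ => abs_nonneg _
  have h4 : ν ≤ ∏ j ∈ univ.erase i.succ, |(gg α *ᵥ iR z) j| := by
    refine h1.trans ?_
    exact mul_le_of_le_one_left h3 hi
  rw [le_div_iff₀ hν]
  exact (mul_le_mul_of_nonneg_left h4 (abs_nonneg _)).trans hΛ

/-- the bound for the number of points in a cell -/
theorem loc_bad (r : ℕ) {ν Λ : ℝ} (hν : 0 < ν) (hΛ : 0 < Λ) :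
    ∃ M : ℕ, ∀ α : Fin r → ℝ, Bad α ν → ∀ S : Finset (Fin (r + 1) → ℤ),
      (∀ z ∈ S, z 0 ≠ 0 ∧ |∏ i, (gg α *ᵥ iR z) i| ≤ Λ) →
      Loc ν Λ M (fun z => gg α *ᵥ iR z) S := by
  classical
  set E : ℝ := Real.exp (B0 r ν Λ) with hE
  have hE0 : 0 < E := Real.exp_pos _
  set c1 : ℝ := ν / (Λ / ν * E ^ r) with hc1
  have hc10 : 0 < c1 := by positivity
  set c : ℝ := min 1 (min ν c1) with hc
  have hc0 : 0 < c := lt_min one_pos (lt_min hν hc10)
  have hc_1 : c ≤ 1 := min_le_left _ _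
  have hc_ν : c ≤ ν := (min_le_right _ _).trans (min_le_left _ _)
  have hc_c1 : c ≤ c1 := (min_le_right _ _).trans (min_le_right _ _)
  set L : ℤ := ⌈2 * E / c⌉ + 1 with hL
  have hLE : 2 * E / c + 1 ≤ (L : ℝ) := by
    rw [hL]
    push_cast
    linarith [Int.le_ceil (2 * E / c)]
  refine ⟨(Finset.Icc (-L) L).card ^ (r + 1), fun α hα S hS => ⟨?_, ?_, ?_⟩⟩
  · exact fun z hz => bad_low hα z (hS z hz).1
  · exact fun z hz => (hS z hz).2
  · intro φ hφ S' hS' hcell
    rcases S'.eq_empty_or_nonempty with he | ⟨p₀, hp₀⟩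
    · rw [he, Finset.card_empty]
      exact Nat.zero_le _
    have hexp1 : ∏ i, Real.exp (φ i) = 1 := by rw [← Real.exp_sum, hφ, Real.exp_zero]
    have hprod : ∀ z : Fin (r + 1) → ℤ, ∏ i, (Real.exp (φ i) * |(gg α *ᵥ iR z) i|) =
        |∏ i, (gg α *ᵥ iR z) i| := by
      intro z
      rw [Finset.prod_mul_distrib, hexp1, one_mul, Finset.abs_prod]
    -- the exponents
    have hφi : ∀ i : Fin r, c1 ≤ Real.exp (φ i.succ) := by
      intro i
      have h1 := bad_low hα p₀ (hS p₀ (hS' hp₀)).1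
      rw [← hprod, ← Finset.mul_prod_erase univ _ (mem_univ i.succ)] at h1
      have h2 : ∏ j ∈ univ.erase i.succ, (Real.exp (φ j) * |(gg α *ᵥ iR p₀) j|) ≤ E ^ r := by
        refine (Finset.prod_le_prod (g := fun _ => E) (fun j _ => by positivity)
          (fun j _ => hcell p₀ hp₀ j)).trans (le_of_eq ?_)
        rw [Finset.prod_const, Finset.card_erase_of_mem (mem_univ _), Finset.card_univ,
          Fintype.card_fin, Nat.add_sub_cancel]
      have h3 := bad_coord hν hα p₀ (hS p₀ (hS' hp₀)).1 (hS p₀ (hS' hp₀)).2 i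
      rw [hc1, div_le_iff₀ (by positivity)]
      calc ν ≤ Real.exp (φ i.succ) * |(gg α *ᵥ iR p₀) i.succ| *
            ∏ j ∈ univ.erase i.succ, (Real.exp (φ j) * |(gg α *ᵥ iR p₀) j|) := h1
        _ ≤ Real.exp (φ i.succ) * (Λ / ν) * E ^ r := by
            refine mul_le_mul ?_ h2 (Finset.prod_nonneg fun _ _ => by positivity) (by positivity)
            exact mul_le_mul_of_nonneg_left h3 (Real.exp_pos _).le
        _ = Real.exp (φ i.succ) * (Λ / ν * E ^ r) := by ring
    -- no short vectors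
    have hshort : ∀ m : Fin (r + 1) → ℤ, m ≠ 0 → ∃ i, c ≤ Real.exp (φ i) * |(gg α *ᵥ iR m) i| := by
      intro m hm
      by_cases h0 : m 0 = 0
      · obtain ⟨j, hj⟩ := Function.ne_iff.1 hm
        rw [Pi.zero_apply] at hj
        obtain ⟨i, rfl⟩ : ∃ i : Fin r, i.succ = j := by
          refine Fin.exists_succ_eq.2 ?_
          rintro rfl
          exact hj h0
        refine ⟨i.succ, ?_⟩
        rw [gg_succ, h0, Int.cast_zero, mul_zero, zero_sub, abs_neg]
        have h1 : (1 : ℝ) ≤ |(m i.succ : ℝ)| := by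
          have : (1 : ℤ) ≤ |m i.succ| := Int.one_le_abs hj
          exact_mod_cast this
        have h2 := hφi i
        nlinarith [Real.exp_pos (φ i.succ)]
      · by_contra hcon
        push Not at hcon
        have h1 := bad_low hα m h0
        rw [← hprod, ← Finset.mul_prod_erase univ _ (mem_univ (0 : Fin (r + 1)))] at h1
        have h2 : ∏ j ∈ univ.erase (0 : Fin (r + 1)), (Real.exp (φ j) * |(gg α *ᵥ iR m) j|) ≤ 1 :=
          Finset.prod_le_one (fun j _ => by positivity) fun j _ => (hcon j).le.trans hc_1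
        have h3 : Real.exp (φ 0) * |(gg α *ᵥ iR m) 0| *
            ∏ j ∈ univ.erase (0 : Fin (r + 1)), (Real.exp (φ j) * |(gg α *ᵥ iR m) j|) ≤
            Real.exp (φ 0) * |(gg α *ᵥ iR m) 0| := mul_le_of_le_one_right (by positivity) h2
        have h4 := hcon 0
        linarith
    -- pigeonhole
    set f : (Fin (r + 1) → ℤ) → Fin (r + 1) → ℤ :=
      fun z i => ⌊2 * (Real.exp (φ i) * (gg α *ᵥ iR z) i) / c⌋ with hf
    have hmap : ∀ z ∈ S', f z ∈ Fintype.piFinset fun _ : Fin (r + 1) => Finset.Icc (-L) L := by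
      intro z hz
      rw [Fintype.mem_piFinset]
      intro i
      have h1 := hcell z hz i
      have h2 : |2 * (Real.exp (φ i) * (gg α *ᵥ iR z) i) / c| ≤ 2 * E / c := by
        rw [abs_div, abs_of_pos hc0, abs_mul, abs_mul, Real.abs_exp, abs_of_pos (two_pos (α := ℝ))]
        gcongr
      have h3 := abs_le.1 h2
      rw [Finset.mem_Icc]
      constructor
      · rw [Int.le_floor]
        push_cast
        linarith
      · have h5 : (⌊2 * (Real.exp (φ i) * (gg α *ᵥ iR z) i) / c⌋ : ℝ) ≤ L :=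
          (Int.floor_le _).trans (by linarith)
        exact_mod_cast h5
    have hinj : Set.InjOn f S' := by
      intro z hz w hw hzw
      by_contra hne
      have hm : z - w ≠ 0 := sub_ne_zero.2 hne
      obtain ⟨i, hi⟩ := hshort (z - w) hm
      have h1 := congrFun hzw i
      simp only [hf] at h1
      have h2 := Int.abs_sub_lt_one_of_floor_eq_floor h1
      have h3 : (gg α *ᵥ iR (z - w)) i = (gg α *ᵥ iR z) i - (gg α *ᵥ iR w) i := by
        have : iR (z - w) = iR z - iR w := by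
          funext j
          simp [iR]
        rw [this, mulVec_sub]
        rfl
      have h4 : 2 * (Real.exp (φ i) * (gg α *ᵥ iR z) i) / c -
          2 * (Real.exp (φ i) * (gg α *ᵥ iR w) i) / c =
          2 * (Real.exp (φ i) * (gg α *ᵥ iR (z - w)) i) / c := by
        rw [h3]; ring
      rw [h4, abs_div, abs_of_pos hc0, abs_mul, abs_mul, Real.abs_exp,
        abs_of_pos (two_pos (α := ℝ)), div_lt_one hc0] at h2
      nlinarith
    have h5 := Finset.card_le_card_of_injOn f hmap hinj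
    rwa [Fintype.card_piFinset_const] at h5

end Pool.Agent.Run7.h566.LS
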