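import Mathlib
import Pool.Agent.Run7.h566.LS.Lw
import Pool.Agent.H715R2.CountableValues

/-! Many small solutions. -/

set_option autoImplicit false

open Matrix H715R2 Finset

namespace Pool.Agent.Run7.h566.LS

/-- **Many solutions.** -/
theorem many_bad (r : ℕ) (hr : 0 < r) {ν T : ℝ} (hν : 0 < ν)
    (hT : ((r + 1).factorial : ℝ) < ((r + 1 : ℕ) : ℝ) ^ (r + 1) * T) :
    ∃ c x₀ : ℝ, 0 < c ∧ 1 ≤ x₀ ∧ ∀ α : Fin r → ℝ, Bad α ν → ∀ x : ℝ, x₀ ≤ x →
      ∃ S : Finset (Fin (r + 1) → ℤ), (∀ z ∈ S, 1 ≤ z 0 ∧ (z 0 : ℝ) ≤ Real.exp x ∧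
        |∏ i, (gg α *ᵥ iR z) i| < T) ∧ c * x ^ r ≤ (S.card : ℝ) := by
  classical
  have hd : 0 < r + 1 := Nat.succ_pos r
  have hdR : (0 : ℝ) < ((r + 1 : ℕ) : ℝ) := by exact_mod_cast hd
  have hrR : (1 : ℝ) ≤ r := by exact_mod_cast hr
  have hT0 : 0 < T := by
    have h1 : (0 : ℝ) < (r + 1).factorial := by positivity
    have h2 : 0 < ((r + 1 : ℕ) : ℝ) ^ (r + 1) * T := h1.trans hT
    exact (mul_pos_iff_of_pos_left (by positivity)).1 h2
  obtain ⟨R, hR0, hRd, hRT⟩ : ∃ R : ℝ, 0 < R ∧ R ^ (r + 1) = ((r + 1 : ℕ) : ℝ) ^ (r + 1) * T ∧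
      (R / ((r + 1 : ℕ) : ℝ)) ^ (r + 1) = T := by
    have hTd : (T ^ ((1 : ℝ) / ((r + 1 : ℕ) : ℝ))) ^ (r + 1) = T := by
      rw [← Real.rpow_natCast, ← Real.rpow_mul hT0.le, one_div, inv_mul_cancel₀ hdR.ne',
        Real.rpow_one]
    refine ⟨((r + 1 : ℕ) : ℝ) * T ^ ((1 : ℝ) / ((r + 1 : ℕ) : ℝ)),
      mul_pos hdR (Real.rpow_pos_of_pos hT0 _), by rw [mul_pow, hTd], ?_⟩
    rw [mul_div_cancel_left₀ _ hdR.ne', hTd]
  have hR1 : 1 < R := by
    by_contra h
    push Not at h
    have h1 : R ^ (r + 1) ≤ 1 := pow_le_one₀ hR0.le h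
    have h2 : (1 : ℝ) ≤ (r + 1).factorial := by exact_mod_cast Nat.factorial_pos (r + 1)
    linarith
  have hlR : 0 < Real.log R := Real.log_pos hR1
  set s0 : ℝ := Real.log R + 1 with hs0
  have hs00 : 0 < s0 := by linarith
  have hes0 : R < Real.exp s0 := by
    rw [hs0, Real.exp_add, Real.exp_log hR0]
    have : 1 < Real.exp 1 := Real.one_lt_exp_iff.2 one_pos
    nlinarith
  set B₁ : ℝ := |Real.log (R / (ν / R ^ r))| with hB₁
  set D : ℝ := B₁ + 1 with hD
  have hB₁0 : 0 ≤ B₁ := abs_nonneg _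
  have hD0 : 0 < D := by linarith
  set A : ℝ := Real.log R + r * s0 with hA
  have hA0 : 0 ≤ A := by positivity
  refine ⟨(1 / (2 * D * r)) ^ r, 2 * A + 1, by positivity, by linarith, ?_⟩
  intro α hα x hx
  have hx1 : 1 ≤ x := by linarith
  obtain ⟨K, hK⟩ : ∃ K : ℕ, K = ⌊x / (2 * D * r)⌋₊ := ⟨_, rfl⟩
  have hK1 : (K : ℝ) ≤ x / (2 * D * r) := by
    rw [hK]
    exact Nat.floor_le (by positivity)
  have hK2 : x / (2 * D * r) ≤ (K : ℝ) + 1 := by
    rw [hK]
    exact (Nat.lt_floor_add_one _).le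
  have hDrK : r * (D * K) ≤ x / 2 := by
    have h1 : r * (D * K) ≤ r * (D * (x / (2 * D * r))) := by gcongr
    have h2 : r * (D * (x / (2 * D * r))) = x / 2 := by
      field_simp
    linarith
  set s : (Fin r → Fin (K + 1)) → Fin r → ℝ := fun k j => s0 + D * ((k j : ℕ) : ℝ) with hs
  set φ : (Fin r → Fin (K + 1)) → Fin (r + 1) → ℝ :=
    fun k => Fin.cons (α := fun _ => ℝ) (-∑ j, s k j) (s k) with hφ
  have hφ0 : ∀ k, φ k 0 = -∑ j, s k j := fun k => rfl
  have hφs : ∀ k (j : Fin r), φ k j.succ = s k j := fun k j => rfl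
  have hφsum : ∀ k, ∑ i, φ k i = 0 := fun k => by
    rw [Fin.sum_univ_succ, hφ0, Finset.sum_congr rfl fun j _ => hφs k j]
    ring
  have hφ1 : ∀ k, ∏ i, Real.exp (φ k i) = 1 := fun k => by
    rw [← Real.exp_sum, hφsum, Real.exp_zero]
  have hsle : ∀ k, ∑ j, s k j ≤ r * s0 + x / 2 := by
    intro k
    have h1 : ∑ j, s k j ≤ ∑ _j : Fin r, (s0 + D * K) := by
      refine Finset.sum_le_sum fun j _ => ?_
      have h2 : ((k j : ℕ) : ℝ) ≤ K := by exact_mod_cast Nat.lt_succ_iff.1 (k j).2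
      have := mul_le_mul_of_nonneg_left h2 hD0.le
      simp only [hs]
      linarith
    rw [Finset.sum_const, Finset.card_univ, Fintype.card_fin, nsmul_eq_mul] at h1
    linarith
  -- the points
  have hpt : ∀ k : Fin r → Fin (K + 1), ∃ z : Fin (r + 1) → ℤ, 1 ≤ z 0 ∧
      (∀ i, Real.exp (φ k i) * |(gg α *ᵥ iR z) i| ≤ R) ∧ |∏ i, (gg α *ᵥ iR z) i| < T := by
    intro k
    have hdet : |(diagonal (fun i => Real.exp (φ k i)) * gg α).det| = 1 := by
      rw [det_mul, det_diagonal, hφ1, one_mul]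
      exact gg_det α
    have hdet0 : (diagonal (fun i => Real.exp (φ k i)) * gg α).det ≠ 0 := by
      intro h
      rw [h, abs_zero] at hdet
      exact zero_ne_one hdet
    obtain ⟨m, hm, hsum⟩ := mink hd _ hdet0 R hR0 (by rw [hdet, mul_one, hRd]; exact hT)
    have hent : ∀ i, |((diagonal (fun i => Real.exp (φ k i)) * gg α) *ᵥ iR m) i| =
        Real.exp (φ k i) * |(gg α *ᵥ iR m) i| := by
      intro i
      rw [← mulVec_mulVec, mulVec_diagonal, abs_mul, Real.abs_exp]
    simp only [hent] at hsum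
    have hnn : ∀ i, 0 ≤ Real.exp (φ k i) * |(gg α *ᵥ iR m) i| := fun i => by positivity
    have hlt : ∀ i, Real.exp (φ k i) * |(gg α *ᵥ iR m) i| < R := fun i =>
      lt_of_le_of_lt (Finset.single_le_sum (f := fun i => Real.exp (φ k i) * |(gg α *ᵥ iR m) i|)
        (fun i _ => hnn i) (Finset.mem_univ i)) hsum
    have hprod : |∏ i, (gg α *ᵥ iR m) i| < T := by
      have h1 : |∏ i, (gg α *ᵥ iR m) i| = ∏ i, (Real.exp (φ k i) * |(gg α *ᵥ iR m) i|) := by
        rw [Finset.prod_mul_distrib, hφ1, one_mul, Finset.abs_prod]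
      rw [h1]
      refine (amgm hd _ hnn).trans_lt ?_
      rw [← hRT]
      exact pow_lt_pow_left₀ (div_lt_div_of_pos_right hsum hdR)
        (div_nonneg (Finset.sum_nonneg fun i _ => hnn i) hdR.le) hd.ne'
    have hm0 : m 0 ≠ 0 := by
      intro h0
      obtain ⟨j, hj⟩ := Function.ne_iff.1 hm
      rw [Pi.zero_apply] at hj
      obtain ⟨i, rfl⟩ : ∃ i : Fin r, i.succ = j := by
        refine Fin.exists_succ_eq.2 ?_
        rintro rfl
        exact hj h0
      have h1 := hlt i.succ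
      rw [gg_succ, h0, Int.cast_zero, mul_zero, zero_sub, abs_neg, hφs] at h1
      have h2 : (1 : ℝ) ≤ |(m i.succ : ℝ)| := by
        have : (1 : ℤ) ≤ |m i.succ| := Int.one_le_abs hj
        exact_mod_cast this
      have h3 : Real.exp s0 ≤ Real.exp (s k i) := by
        rw [Real.exp_le_exp]
        simp only [hs]
        have : 0 ≤ D * ((k i : ℕ) : ℝ) := by positivity
        linarith
      nlinarith [Real.exp_pos (s k i)]
    have hneg : ∀ i, (gg α *ᵥ iR (-m)) i = -(gg α *ᵥ iR m) i := by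
      intro i
      have : iR (-m) = -iR m := by
        funext j
        simp [iR]
      rw [this, mulVec_neg]
      rfl
    rcases lt_or_gt_of_ne hm0 with h0 | h0
    · refine ⟨-m, ?_, fun i => ?_, ?_⟩
      · rw [Pi.neg_apply]
        omega
      · rw [hneg, abs_neg]
        exact (hlt i).le
      · have : |∏ i, (gg α *ᵥ iR (-m)) i| = |∏ i, (gg α *ᵥ iR m) i| := by
          rw [Finset.abs_prod, Finset.abs_prod]
          exact Finset.prod_congr rfl fun i _ => by rw [hneg, abs_neg]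
        rw [this]
        exact hprod
    · exact ⟨m, by omega, fun i => (hlt i).le, hprod⟩
  choose p hp0 hpR hpT using hpt
  set m0 : ℝ := ν / R ^ r with hm0
  have hm00 : 0 < m0 := by positivity
  have hlow : ∀ k i, m0 ≤ Real.exp (φ k i) * |(gg α *ᵥ iR (p k)) i| := by
    intro k i
    have h1 : ν ≤ ∏ i, (Real.exp (φ k i) * |(gg α *ᵥ iR (p k)) i|) := by
      have h2 := bad_low hα (p k) (by have := hp0 k; omega)
      rw [Finset.prod_mul_distrib, hφ1, one_mul, ← Finset.abs_prod]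
      exact h2
    rw [← Finset.mul_prod_erase Finset.univ _ (Finset.mem_univ i)] at h1
    have h3 : ∏ i ∈ Finset.univ.erase i, (Real.exp (φ k i) * |(gg α *ᵥ iR (p k)) i|) ≤ R ^ r := by
      refine (Finset.prod_le_prod (fun j _ => by positivity) (fun j _ => hpR k j)).trans
        (le_of_eq ?_)
      rw [Finset.prod_const, Finset.card_erase_of_mem (Finset.mem_univ _), Finset.card_univ,
        Fintype.card_fin, Nat.add_sub_cancel]
    rw [hm0, div_le_iff₀ (by positivity)]
    exact h1.trans (mul_le_mul_of_nonneg_left h3 (by positivity))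
  have hinj : Function.Injective p := by
    intro k k' hkk
    have hclose : ∀ k k', p k = p k' → ∀ i, φ k i - φ k' i ≤ B₁ := by
      intro k k' hkk i
      have h1 := hpR k i
      have h2 := hlow k' i
      rw [← hkk] at h2
      set y := |(gg α *ᵥ iR (p k)) i| with hy
      have hy0 : 0 < y := by
        rcases (abs_nonneg ((gg α *ᵥ iR (p k)) i)).lt_or_eq with h | h
        · exact h
        · exfalso
          rw [hy, ← h, mul_zero] at h2
          linarith
      have h3 : Real.exp (φ k i - φ k' i) ≤ R / m0 := by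
        rw [Real.exp_sub, div_le_div_iff₀ (Real.exp_pos _) hm00]
        have h4 : Real.exp (φ k i) * m0 ≤ Real.exp (φ k i) * (Real.exp (φ k' i) * y) :=
          mul_le_mul_of_nonneg_left h2 (Real.exp_pos _).le
        have h5 : Real.exp (φ k i) * (Real.exp (φ k' i) * y) =
            (Real.exp (φ k i) * y) * Real.exp (φ k' i) := by ring
        have h6 : (Real.exp (φ k i) * y) * Real.exp (φ k' i) ≤ R * Real.exp (φ k' i) :=
          mul_le_mul_of_nonneg_right h1 (Real.exp_pos _).le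
        linarith
      have h7 := Real.log_le_log (Real.exp_pos _) h3
      rw [Real.log_exp] at h7
      exact h7.trans (le_abs_self _)
    funext j
    have h1 := hclose k k' hkk j.succ
    have h2 := hclose k' k hkk.symm j.succ
    rw [hφs, hφs] at h1 h2
    simp only [hs] at h1 h2
    have h3 : D * |((k j : ℕ) : ℝ) - ((k' j : ℕ) : ℝ)| ≤ B₁ := by
      rw [← abs_of_pos hD0, ← abs_mul, abs_le]
      constructor
      · linarith
      · linarith
    have h4 : |((k j : ℕ) : ℝ) - ((k' j : ℕ) : ℝ)| < 1 := by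
      by_contra h5
      push Not at h5
      have : D * 1 ≤ D * |((k j : ℕ) : ℝ) - ((k' j : ℕ) : ℝ)| :=
        mul_le_mul_of_nonneg_left h5 hD0.le
      linarith
    have h5 : |(((k j : ℕ) : ℤ) - ((k' j : ℕ) : ℤ) : ℤ)| < 1 := by
      have : ((|(((k j : ℕ) : ℤ) - ((k' j : ℕ) : ℤ) : ℤ)| : ℤ) : ℝ) < 1 := by
        push_cast
        exact h4
      exact_mod_cast this
    have h6 : ((k j : ℕ) : ℤ) - ((k' j : ℕ) : ℤ) = 0 := by
      rw [Int.abs_lt_one_iff] at h5
      exact h5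
    apply Fin.ext
    omega
  refine ⟨Finset.univ.image p, ?_, ?_⟩
  · intro q hq
    obtain ⟨k, -, rfl⟩ := Finset.mem_image.1 hq
    refine ⟨hp0 k, ?_, hpT k⟩
    have h1 := hpR k 0
    rw [gg_zero, hφ0] at h1
    have h2 : (p k 0 : ℝ) ≤ |(p k 0 : ℝ)| := le_abs_self _
    have h3 : |(p k 0 : ℝ)| ≤ R * Real.exp (∑ j, s k j) := by
      rw [Real.exp_neg, inv_mul_le_iff₀ (Real.exp_pos _)] at h1
      linarith
    refine h2.trans (h3.trans ?_)
    rw [← Real.exp_log hR0, ← Real.exp_add]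
    apply Real.exp_le_exp.2
    have h4 := hsle k
    linarith
  · rw [Finset.card_image_of_injective _ hinj, Finset.card_univ]
    have h1 : (Fintype.card (Fin r → Fin (K + 1)) : ℝ) = ((K : ℝ) + 1) ^ r := by
      rw [Fintype.card_fun, Fintype.card_fin, Fintype.card_fin]
      push_cast
      ring
    rw [h1, ← mul_pow]
    refine pow_le_pow_left₀ (by positivity) ?_ r
    refine le_trans (le_of_eq ?_) hK2
    ring

end Pool.Agent.Run7.h566.LS
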